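import Pool.Agent.V11321.EV.Top

/-!
# The exact variation of the percolation interface

Critical bond percolation (`q = 1`) on `δ ℤ²` in a rectangle `D = (-A, B) × (0, H)`, with the
counterclockwise boundary arc from `a = t + i H` to `b = 0` wired and the other one dual-wired. The
exploration path is parametrised by its number of steps: `Rect.curve` is the piecewise linear curve
on `[0, 1]` run at constant speed, and `Rect.time` is the number of steps times `δ ^ (7/4)`;
`Rect.law` is the law of (curve, time). Weak limits exist along a subsequence of every sequence of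
meshes.

Let `ψ(x) = x ^ (7/4) / (log log (1/x)) ^ (3/4)` (with `max 1 (log log (1/x))` for
`log log (1/x)`). There are universal constants `c, C > 0` such that for every rectangle and every
weak limit `p = (f, T)`, almost surely, for all `s < t`,
`c T (t - s) ≤ lim (η → 0) of sup ∑ ψ(|f(τ (i + 1)) - f(τ i)|) ≤ C T (t - s)`, where the supremum is
over the partitions `s = τ 0 ≤ τ 1 ≤ ... ≤ τ n = t` of mesh at most `η`: the `ψ`-variation of the
curve is comparable to its natural time. This is the analogue of Taylor's theorem on the exact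
variation of Brownian motion.

Definitions: `psi` below, `Pool.Agent.H984R4.NP.Model` (`Rect`, `pos`, `clamp`, `pl`, `X`,
`Rect.dm`, `Rect.curve`, `Rect.time`, `Rect.law`), `Pool.Agent.H984R4.NP.Defs` (`Dm`, `Dm.edges`,
`Dm.wir`, `Dm.cfg`, `Dm.walk`, `Dm.len`) and `Pool.Agent.H984R3.Per.Defs` (states, `ae`, `mv`,
`rt`, `nxt`, `orb`). The statement and the lattice estimates (many fast pairs, few fast times) are
those of the starting project EV (`Pool.Agent.Y41.EV`, helper41 with helpers 287, 490, 758, 858,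
864, 941, 988), which left the passage from them to the variation open; that part is in
`Pool.Agent.V11321.EV`.
-/

set_option autoImplicit false

namespace Pool.Agent.Results.MP_216314_pr.ExactVariation

open H984N MeasureTheory Filter Topology

/-- `x ^ (7/4) / (max 1 (log log (1/x))) ^ (3/4)` -/
noncomputable def psi (x : ℝ) : ℝ :=
  x ^ (7/4 : ℝ) / (max 1 (Real.log (Real.log (1 / x)))) ^ (3/4 : ℝ)

/-- `τ` is a partition of `[s, t]` into `n` intervals of length at most `η`. -/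
def Part (s t : unitInterval) (η : ℝ) (n : ℕ) (τ : ℕ → unitInterval) : Prop :=
  Monotone τ ∧ τ 0 = s ∧ τ n = t ∧ ∀ i < n, (τ (i + 1) : ℝ) - τ i ≤ η

/-- the `ψ`-sum of the curve `f` over a partition -/
noncomputable def psum (f : C(unitInterval, ℂ)) (n : ℕ) (τ : ℕ → unitInterval) : ℝ :=
  ∑ i ∈ Finset.range n, psi (dist (f (τ i)) (f (τ (i + 1))))

theorem result : ∃ c C : ℝ, 0 < c ∧ 0 < C ∧ ∀ R : Rect,
    (∀ δ : ℕ → ℝ, (∀ i, 0 < δ i) → Tendsto δ atTop (𝓝 0) →
      ∃ φ : ℕ → ℕ, StrictMono φ ∧ ∃ μ : ProbabilityMeasure X,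
        Tendsto (fun i => R.law (δ (φ i))) atTop (𝓝 μ)) ∧
    ∀ δ : ℕ → ℝ, (∀ i, 0 < δ i) → Tendsto δ atTop (𝓝 0) → ∀ μ : ProbabilityMeasure X,
      Tendsto (fun i => R.law (δ i)) atTop (𝓝 μ) →
      ∀ᵐ p ∂(μ : Measure X), 0 < p.2 ∧ ∀ s t : unitInterval, s < t →
        (∀ η : ℝ, 0 < η → ∃ (n : ℕ) (τ : ℕ → unitInterval), Part s t η n τ ∧
          c * (p.2 * ((t : ℝ) - s)) ≤ psum p.1 n τ) ∧
        ∃ η : ℝ, 0 < η ∧ ∀ (n : ℕ) (τ : ℕ → unitInterval), Part s t η n τ →
          psum p.1 n τ ≤ C * (p.2 * ((t : ℝ) - s)) := by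
  obtain ⟨c, C, hc, hC, h⟩ := Pool.Agent.V11321.EV.exact_var
  refine ⟨c, C, hc, hC, fun R => ⟨(h R).1, fun δ hδ hlim μ hμ => ?_⟩⟩
  filter_upwards [(h R).2 δ hδ hlim μ hμ] with p hp
  refine ⟨hp.1, fun s t hst => ⟨fun η hη => ?_, ?_⟩⟩
  · obtain ⟨n, τ, h1, h2, h3, h4, h5⟩ := (hp.2 s t hst).1 η hη
    exact ⟨n, τ, ⟨h1, h2, h3, h4⟩, h5⟩
  · obtain ⟨η, hη, h1⟩ := (hp.2 s t hst).2
    exact ⟨η, hη, fun n τ hτ => h1 n τ hτ.1 hτ.2.1 hτ.2.2.1 hτ.2.2.2⟩

end Pool.Agent.Results.MP_216314_pr.ExactVariation
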