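import Pool.Agent.V11324.KI.Rect
import Pool.Agent.Results.MP_fe58d8_pr.UniformDimension

/-!
# Intersections of independent critical interfaces

Critical bond percolation (the random-cluster model with `q = 1`) on `δ ℤ²` in a rectangle
`D = (-A, B) × (0, H)`, with the counterclockwise boundary arc from `a = t + i H` to `b = 0` wired
and the other one dual-wired. Weak limits of the law of the interface, as `δ → 0`, exist along a
subsequence of every sequence of meshes. For `k` independent interfaces, distributed according to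
any weak limits (for the same or for different rectangles), and every fixed sigma-compact set `S` in
the rectangles (for instance every open or closed subset), the essential supremum of the Hausdorff
dimension of the set of the points of `S` which are on all `k` interfaces is exactly
`dim S - k / 4` (truncated at `0`), and if `dim S < k / 4` then almost surely no point of `S` is on
all `k` interfaces. In particular `k ≤ 7` independent interfaces in the same rectangle have with
positive probability common points in it, and nine or more of them almost surely have none.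

Definitions: `Pool.Agent.H984R4.NP.Model` (`Rect`, `pos`, `clamp`, `pl`, `X`, `Rect.D`, `Rect.dm`,
`Rect.curve`, `Rect.time`, `Rect.law`), `Pool.Agent.H984R4.NP.Defs` (`Dm`, `Dm.edges`, `Dm.wir`,
`Dm.cfg`, `Dm.walk`, `Dm.len`) and `Pool.Agent.H984R3.Per.Defs` (states, `ae`, `mv`, `rt`, `nxt`,
`orb`).
-/

set_option autoImplicit false

namespace Pool.Agent.Results.MP_216314_pr.IndependentInterfaces

open H984N MeasureTheory Filter Topology
open scoped ENNReal

/-- `μ` is a weak limit, along some sequence of meshes, of the law of the interface in `R` (as a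
curve with its natural time). -/
def IsLimit (R : Rect) (μ : ProbabilityMeasure X) : Prop :=
  ∃ δ : ℕ → ℝ, (∀ j, 0 < δ j) ∧ Tendsto δ atTop (𝓝 0) ∧ Tendsto (fun j => R.law (δ j)) atTop (𝓝 μ)

theorem two_lt {k : ℕ} (hk : 9 ≤ k) : (2 : ℝ≥0∞) < (k : ℝ≥0∞) / 4 := by
  rw [ENNReal.lt_div_iff_mul_lt (Or.inl (by norm_num)) (Or.inl (by norm_num))]
  have h1 : (2 : ℝ≥0∞) * 4 = ((8 : ℕ) : ℝ≥0∞) := by norm_num
  rw [h1]
  exact_mod_cast hk

theorem result :
    (∀ (R : Rect) (δ : ℕ → ℝ), (∀ i, 0 < δ i) → Tendsto δ atTop (𝓝 0) →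
      ∃ φ : ℕ → ℕ, StrictMono φ ∧ ∃ μ : ProbabilityMeasure X,
        Tendsto (fun i => R.law (δ (φ i))) atTop (𝓝 μ)) ∧
    (∀ (k : ℕ) (R : Fin k → Rect) (μ : Fin k → ProbabilityMeasure X),
      (∀ i, IsLimit (R i) (μ i)) → ∀ S : Set ℂ, (∀ i, S ⊆ (R i).D) → IsSigmaCompact S →
        essSup (fun p : Fin k → X => dimH (S ∩ ⋂ i, Set.range (p i).1))
          (Measure.pi fun i => (μ i : Measure X)) = dimH S - (k : ℝ≥0∞) / 4 ∧
        (dimH S < (k : ℝ≥0∞) / 4 → ∀ᵐ p ∂(Measure.pi fun i => (μ i : Measure X)),
          S ∩ ⋂ i, Set.range (p i).1 = ∅)) ∧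
    (∀ (k : ℕ) (R : Rect) (μ : Fin k → ProbabilityMeasure X), (∀ i, IsLimit R (μ i)) →
        essSup (fun p : Fin k → X => dimH (R.D ∩ ⋂ i, Set.range (p i).1))
          (Measure.pi fun i => (μ i : Measure X)) = 2 - (k : ℝ≥0∞) / 4 ∧
        (9 ≤ k → ∀ᵐ p ∂(Measure.pi fun i => (μ i : Measure X)),
          R.D ∩ ⋂ i, Set.range (p i).1 = ∅)) := by
  refine ⟨fun R => (MP_fe58d8_pr.UniformDimension.result R).1, ?_, ?_⟩
  · intro k R μ hμ S hSD hS
    exact V11324.KI.main k R μ hμ S hSD hS
  · intro k R μ hμ
    obtain ⟨h1, h2⟩ := V11324.KI.dim_D R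
    have h := V11324.KI.main k (fun _ => R) μ hμ R.D (fun _ => le_rfl) h2
    rw [h1] at h
    exact ⟨h.1, fun hk => h.2 (two_lt hk)⟩

end Pool.Agent.Results.MP_216314_pr.IndependentInterfaces
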