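import Pool.Agent.V11321.ND.Slow

/-!
# Slow times of the percolation interface: dimension `1 - Θ(a ^ (-14))`

Critical bond percolation (`q = 1`) on `δ ℤ²` in a rectangle `D = (-A, B) × (0, H)`, with the
counterclockwise boundary arc from `a = t + i H` to `b = 0` wired and the other one dual-wired. The
interface is parametrised by its number of steps: `Rect.curve` is the piecewise linear curve on
`[0, 1]` run at constant speed, and `Rect.time` is the number of steps times `δ ^ (7/4)`; `Rect.law`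
is the law of (curve, time). Weak limits exist along a subsequence of every sequence of meshes.

Let `p = (f, T)` be a sample of a weak limit and `g h = h ^ (4/7) (log (1/h)) ^ (-1/14)`; this is the
order of the smallest discs which contain an arc of natural length `h`. A time `u` is `a`-slow if
for arbitrarily small `h` the curve stays in the disc of radius `a g h` around `f u` during the
time interval of natural length `2 h` centred at `u`; it is weakly `a`-slow if this holds for some
time interval of natural length at least `h` which contains `u`. There are universal constants `c`,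
`C`, `a₀` such that in every rectangle, for every weak limit, almost surely, simultaneously for all
`a ≥ a₀` and all `s < t`, the `a`-slow times in `[s, t]` have Hausdorff dimension at least
`1 - C / a ^ 14` and all weakly `a`-slow times together have Hausdorff dimension at most
`1 - c / a ^ 14`; for the sets of the points `f u` the bounds are multiplied by `7/4`.

Definitions: `Pool.Agent.H984R4.NP.Model` (`Rect`, `pos`, `clamp`, `pl`, `X`, `Rect.dm`,
`Rect.curve`, `Rect.time`, `Rect.law`), `Pool.Agent.H984R4.NP.Defs` (`Dm`, `Dm.edges`, `Dm.wir`,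
`Dm.cfg`, `Dm.walk`, `Dm.len`) and `Pool.Agent.H984R3.Per.Defs` (states, `ae`, `mv`, `rt`, `nxt`,
`orb`).
-/

set_option autoImplicit false

namespace Pool.Agent.Results.MP_216314_pr.SlowTimes

open H984N MeasureTheory Filter Topology

/-- The gauge `h ^ (4/7) (log (1/h)) ^ (-1/14)`. -/
noncomputable def g (h : ℝ) : ℝ := h ^ (4/7 : ℝ) * Real.log (1 / h) ^ (-(1/14) : ℝ)

/-- The `a`-slow times of `p = (f, T)`: for arbitrarily small `h > 0`, the curve stays in the disc of
radius `a g h` around `f u` at all times `y` with `T |y - u| ≤ h`. -/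
def Slow (a : ℝ) (p : X) : Set unitInterval :=
  {u | ∃ᶠ h : ℝ in 𝓝[>] 0, ∀ y : unitInterval, p.2 * |(y : ℝ) - u| ≤ h →
    dist (p.1 y) (p.1 u) ≤ a * g h}

/-- The weakly `a`-slow times of `p = (f, T)`: for arbitrarily small `h > 0`, the curve stays in the
disc of radius `a g h` around `f u` during a time interval `[s, t]` which contains `u` and has
natural length `T (t - s) ≥ h`. -/
def WeaklySlow (a : ℝ) (p : X) : Set unitInterval :=
  {u | ∃ᶠ h : ℝ in 𝓝[>] 0, ∃ s t : unitInterval, (s ≤ u ∧ u ≤ t) ∧ h ≤ p.2 * ((t : ℝ) - s) ∧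
    ∀ y : unitInterval, s ≤ y → y ≤ t → dist (p.1 y) (p.1 u) ≤ a * g h}

theorem result : ∃ c C a₀ : ℝ, 0 < c ∧ 0 < C ∧ 0 < a₀ ∧ C / a₀ ^ 14 < 1 ∧ ∀ R : Rect,
    (∀ δ : ℕ → ℝ, (∀ i, 0 < δ i) → Tendsto δ atTop (𝓝 0) →
      ∃ φ : ℕ → ℕ, StrictMono φ ∧ ∃ μ : ProbabilityMeasure X,
        Tendsto (fun i => R.law (δ (φ i))) atTop (𝓝 μ)) ∧
    ∀ δ : ℕ → ℝ, (∀ i, 0 < δ i) → Tendsto δ atTop (𝓝 0) → ∀ μ : ProbabilityMeasure X,
      Tendsto (fun i => R.law (δ i)) atTop (𝓝 μ) →
      ∀ᵐ p ∂(μ : Measure X), 0 < p.2 ∧ ∀ a : ℝ, a₀ ≤ a → Slow a p ⊆ WeaklySlow a p ∧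
        (dimH (WeaklySlow a p) ≤ ENNReal.ofReal (1 - c / a ^ 14) ∧
          dimH (p.1 '' WeaklySlow a p) ≤ ENNReal.ofReal (7 / 4 * (1 - c / a ^ 14))) ∧
        ∀ s t : unitInterval, s < t →
          ENNReal.ofReal (1 - C / a ^ 14) ≤ dimH (Set.Icc s t ∩ Slow a p) ∧
            ENNReal.ofReal (7 / 4 * (1 - C / a ^ 14)) ≤
              dimH (p.1 '' (Set.Icc s t ∩ Slow a p)) := by
  obtain ⟨c, C, a0, hc, hC, ha0, hCa, h⟩ := Pool.Agent.V11321.ND.slow_times
  refine ⟨c, C, a0, hc, hC, ha0, hCa, fun R => ⟨(h R).1, fun δ hδ hlim μ hμ => ?_⟩⟩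
  filter_upwards [(h R).2 δ hδ hlim μ hμ] with p hp
  obtain ⟨hp0, hdim, h1⟩ := hp
  have e3 : (7 / 4 : ENNReal) = ENNReal.ofReal (7 / 4) := by
    rw [ENNReal.ofReal_div_of_pos (by norm_num)]
    norm_num
  refine ⟨hp0, fun a ha => ⟨Pool.Agent.V11321.ND.slow_slw hp0, ?_, fun s t hst => ?_⟩⟩
  · have h2 : dimH (WeaklySlow a p) ≤ ENNReal.ofReal (1 - c / a ^ 14) := (h1 a ha).1
    refine ⟨h2, ?_⟩
    rw [hdim, e3, ENNReal.ofReal_mul (by norm_num)]
    exact mul_le_mul_right h2 _
  · have h2 : ENNReal.ofReal (1 - C / a ^ 14) ≤ dimH (Set.Icc s t ∩ Slow a p) :=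
      (h1 a ha).2 s t hst
    refine ⟨h2, ?_⟩
    rw [hdim, e3, ENNReal.ofReal_mul (by norm_num)]
    exact mul_le_mul_right h2 _

end Pool.Agent.Results.MP_216314_pr.SlowTimes
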